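import Pool.Agent.H75.AP.CubeMain
import Pool.Agent.H75.AP.CubeNone

/-!
For almost all `k ≤ X` the least `m` for which `m ^ 3 + k` is a product of at most four primes larger than
`X ^ (1/50)` has the exact order `log X`, and beyond it such `m` occur with the expected frequency.
-/

namespace Pool.Agent.H75.Old.AlmostAllP4

open Finset Pool.Agent.H75.AP

/-- `n` has no prime factor `≤ X ^ (1/50)` -/
def Rough (X n : ℕ) : Prop := ∀ p : ℕ, p.Prime → p ∣ n → (X : ℝ) ^ (1 / 50 : ℝ) < (p : ℝ)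

/-- `n` is a product of at most four primes, all larger than `X ^ (1/50)` -/
def P4 (X n : ℕ) : Prop := Rough X n ∧ ArithmeticFunction.cardFactors n ≤ 4

theorem result : ∀ η : ℝ, 0 < η → ∃ c C : ℝ, 0 < c ∧ 0 < C ∧ ∃ X₀ : ℕ, ∀ X : ℕ, X₀ ≤ X →
    (∀ M : ℕ, C * Real.log X ≤ M → M ^ 3 ≤ X →
      (Set.ncard {k : ℕ | 1 ≤ k ∧ k ≤ X ∧
        (Set.ncard {m : ℕ | 1 ≤ m ∧ m ≤ M ∧ P4 X (m ^ 3 + k)} : ℝ) < c * M / Real.log X} : ℝ) ≤
      η * X) ∧
    (Set.ncard {k : ℕ | 1 ≤ k ∧ k ≤ X ∧ ∃ m : ℤ, |(m : ℝ)| ≤ c * Real.log X ∧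
      Rough X (m ^ 3 + (k : ℤ)).natAbs} : ℝ) ≤ η * X := by
  classical
  intro η hη
  obtain ⟨c1, C, hc1, hC, X1, H1⟩ := cube_many η hη
  obtain ⟨c2, hc2, X2, H2⟩ := cube_none η hη
  refine ⟨min c1 c2, C, lt_min hc1 hc2, hC, max (max X1 X2) 3, ?_⟩
  intro X hX
  have hX1 : X1 ≤ X := le_trans (le_trans (le_max_left _ _) (le_max_left _ _)) hX
  have hX2 : X2 ≤ X := le_trans (le_trans (le_max_right _ _) (le_max_left _ _)) hX
  have hX3 : 3 ≤ X := le_trans (le_max_right _ _) hX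
  have hlog : 0 ≤ Real.log X := Real.log_natCast_nonneg X
  refine ⟨?_, ?_⟩
  · intro M hM hMX
    have h3 := H1 X M hX1 hM hMX
    refine le_trans ?_ h3
    have hin : ∀ k : ℕ, Set.ncard {m : ℕ | 1 ≤ m ∧ m ≤ M ∧ P4 X (m ^ 3 + k)} =
        ((Icc 1 M).filter (fun m => good X (m ^ 3 + k))).card := by
      intro k
      rw [← Set.ncard_coe_finset]
      congr 1
      ext m
      simp only [Set.mem_ofPred_eq, coe_filter, mem_Icc]
      constructor
      · rintro ⟨h1, h2, h3⟩; exact ⟨⟨h1, h2⟩, h3⟩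
      · rintro ⟨⟨h1, h2⟩, h3⟩; exact ⟨h1, h2, h3⟩
    have hsub : {k : ℕ | 1 ≤ k ∧ k ≤ X ∧
        (Set.ncard {m : ℕ | 1 ≤ m ∧ m ≤ M ∧ P4 X (m ^ 3 + k)} : ℝ) <
          min c1 c2 * M / Real.log X} ⊆
        (((Icc 1 X).filter (fun k =>
          (((Icc 1 M).filter (fun m => good X (m ^ 3 + k))).card : ℝ) < c1 * M / Real.log X) :
          Finset ℕ) : Set ℕ) := by
      intro k hk
      rw [mem_coe, mem_filter, mem_Icc]
      refine ⟨⟨hk.1, hk.2.1⟩, ?_⟩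
      have h5 := hk.2.2
      rw [hin k] at h5
      refine h5.trans_le ?_
      apply div_le_div_of_nonneg_right _ hlog
      exact mul_le_mul_of_nonneg_right (min_le_left _ _) (by positivity)
    have h4 := Set.ncard_le_ncard hsub (finite_toSet _)
    rw [Set.ncard_coe_finset] at h4
    exact_mod_cast h4
  · have h3 := H2 X hX2
    refine le_trans ?_ h3
    have hsub : {k : ℕ | 1 ≤ k ∧ k ≤ X ∧ ∃ m : ℤ, |(m : ℝ)| ≤ min c1 c2 * Real.log X ∧
      Rough X (m ^ 3 + (k : ℤ)).natAbs} ⊆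
        (((Icc 1 X).filter (fun k : ℕ =>
      ∃ m : ℤ, |(m : ℝ)| ≤ c2 * Real.log X ∧ rough X (m ^ 3 + (k : ℤ)).natAbs) :
          Finset ℕ) : Set ℕ) := by
      intro k hk
      rw [mem_coe, mem_filter, mem_Icc]
      obtain ⟨m, hm, hr⟩ := hk.2.2
      refine ⟨⟨hk.1, hk.2.1⟩, m, hm.trans ?_, hr⟩
      exact mul_le_mul_of_nonneg_right (min_le_right _ _) hlog
    have h4 := Set.ncard_le_ncard hsub (finite_toSet _)
    rw [Set.ncard_coe_finset] at h4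
    exact_mod_cast h4

end Pool.Agent.H75.Old.AlmostAllP4
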