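import Pool.Agent.H75.AP.Upper

/-!
For almost all admissible tuples `(a_1, …, a_k)` of size `X` the least prime `N` for which all
`N + a_i` are products of at most four primes larger than `X ^ (1/50)` has the exact order
`(log X)^k log log X`, and (binomial law) a positive proportion of the `N + a_i` can be taken prime.
-/

namespace Pool.Agent.Results.MP_8923e7_nt.PrimeAndP4Tuples

open Finset Pool.Agent.H75.AP

/-- `(0, a_1, …, a_k)` is admissible -/
def Admissible {k : ℕ} (a : Fin k → ℕ) : Prop :=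
  ∀ p : ℕ, p.Prime → ∃ r : ℕ, ¬ p ∣ r ∧ ∀ i, ¬ p ∣ r + a i

/-- `n` has no prime factor `≤ X ^ (1/50)` -/
def Rough (X n : ℕ) : Prop := ∀ p : ℕ, p.Prime → p ∣ n → (X : ℝ) ^ (1 / 50 : ℝ) < (p : ℝ)

/-- `n` is a product of at most four primes, all larger than `X ^ (1/50)` -/
def P4 (X n : ℕ) : Prop := Rough X n ∧ ArithmeticFunction.cardFactors n ≤ 4

/-- the admissible tuples in `[1, X]^k` -/
def Adms (k X : ℕ) : Set (Fin k → ℕ) := {a | (∀ i, 1 ≤ a i ∧ a i ≤ X) ∧ Admissible a}

/-- `Pr[Bin(k, δ) < j]` -/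
noncomputable def binTail (δ : ℝ) (k j : ℕ) : ℝ :=
  ∑ i ∈ range j, (k.choose i : ℝ) * δ ^ i * (1 - δ) ^ (k - i)

/-- the primes `N ≤ M` such that all `N + a_i` are `P4` and `N + a_i` is prime for `i ∈ I` -/
def Ns (X M k : ℕ) (a : Fin k → ℕ) (I : Finset (Fin k)) : Set ℕ :=
  {N | N ≤ M ∧ N.Prime ∧ (∀ i, P4 X (N + a i)) ∧ ∀ i ∈ I, (N + a i).Prime}

theorem ncard_box (k X : ℕ) (P : (Fin k → ℕ) → Prop) [DecidablePred P] :
    Set.ncard {a : Fin k → ℕ | (∀ i, 1 ≤ a i ∧ a i ≤ X) ∧ P a} =
      ((Fintype.piFinset (fun _ : Fin k => Icc 1 X)).filter P).card := by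
  rw [← Set.ncard_coe_finset]
  congr 1
  ext a
  simp

theorem ncard_N (X M k : ℕ) (a : Fin k → ℕ) (I : Finset (Fin k)) :
    Set.ncard (Ns X M k a I) = by
      classical
      exact ((Icc 1 M).filter (fun N => N.Prime ∧ (∀ i, good X (N + a i)) ∧
        ∀ i ∈ I, (N + a i).Prime)).card := by
  classical
  rw [← Set.ncard_coe_finset]
  congr 1
  ext N
  simp only [Ns, Set.mem_ofPred_eq, coe_filter, mem_Icc]
  constructor
  · rintro ⟨h1, h2, h3, h4⟩
    exact ⟨⟨h2.one_lt.le, h1⟩, h2, h3, h4⟩
  · rintro ⟨⟨_, h1⟩, h2, h3, h4⟩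
    exact ⟨h1, h2, h3, h4⟩

theorem result : ∃ δ : ℝ, 0 < δ ∧ δ ≤ 1 ∧ ∀ k : ℕ, 1 ≤ k → ∀ η : ℝ, 0 < η →
    ∃ c C : ℝ, 0 < c ∧ 0 < C ∧ ∃ X₀ : ℕ, ∀ X : ℕ, X₀ ≤ X →
    (∀ M : ℕ, C * (Real.log X) ^ k * Real.log (Real.log X) ≤ M → M ≤ X → ∀ j : ℕ,
      (Set.ncard {a | a ∈ Adms k X ∧ ¬ ∃ I : Finset (Fin k), I.card = j ∧
        c * M / (Real.log M * (Real.log X) ^ k) ≤ (Set.ncard (Ns X M k a I) : ℝ)} : ℝ) ≤
      (binTail δ k j + η) * Set.ncard (Adms k X)) ∧
    (Set.ncard {a | a ∈ Adms k X ∧ ∃ N : ℕ, N.Prime ∧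
      (N : ℝ) ≤ c * (Real.log X) ^ k * Real.log (Real.log X) ∧ ∀ i, Rough X (N + a i)} : ℝ) ≤
      η * Set.ncard (Adms k X) := by
  classical
  obtain ⟨δ, hδ, hδ1, H⟩ := tuple_binom
  refine ⟨δ, hδ, hδ1, ?_⟩
  intro k hk η hη
  obtain ⟨c1, C, hc1, hC, X1, H1⟩ := H k hk η hη
  obtain ⟨c2, hc2, X2, H2⟩ := tuple_none_adm k hk η hη
  refine ⟨min c1 c2, C, lt_min hc1 hc2, hC, max (max X1 X2) 3, ?_⟩
  intro X hX
  have hX1 : X1 ≤ X := le_trans (le_trans (le_max_left _ _) (le_max_left _ _)) hX
  have hX2 : X2 ≤ X := le_trans (le_trans (le_max_right _ _) (le_max_left _ _)) hX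
  have hX3 : 3 ≤ X := le_trans (le_max_right _ _) hX
  have hlog : 1 ≤ Real.log X := by
    rw [Real.le_log_iff_exp_le (by exact_mod_cast (by omega : 0 < X))]
    have : (3 : ℝ) ≤ X := by exact_mod_cast hX3
    linarith [Real.exp_one_lt_three]
  have hll : 0 ≤ Real.log (Real.log X) := Real.log_nonneg hlog
  have hadm : Set.ncard (Adms k X) =
      ((Fintype.piFinset (fun _ : Fin k => Icc 1 X)).filter (fun a => Adm a)).card :=
    ncard_box k X _
  refine ⟨?_, ?_⟩
  · intro M hM hMX j
    have h3 := H1 X M hX1 hM hMX j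
    rw [hadm]
    refine le_trans ?_ h3
    have hsub : {a | a ∈ Adms k X ∧ ¬ ∃ I : Finset (Fin k), I.card = j ∧
        min c1 c2 * M / (Real.log M * (Real.log X) ^ k) ≤ (Set.ncard (Ns X M k a I) : ℝ)} ⊆
        (((Fintype.piFinset (fun _ : Fin k => Icc 1 X)).filter (Poor X M k j c1) :
          Finset (Fin k → ℕ)) : Set (Fin k → ℕ)) := by
      intro a ha
      rw [mem_coe, mem_filter, Fintype.mem_piFinset]
      refine ⟨fun i => mem_Icc.2 (ha.1.1 i), ha.1.2, fun hrich => ha.2 ?_⟩
      obtain ⟨I, hI, hcount⟩ := hrich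
      refine ⟨I, hI, ?_⟩
      rw [ncard_N]
      refine le_trans ?_ hcount
      apply div_le_div_of_nonneg_right
      · exact mul_le_mul_of_nonneg_right (min_le_left _ _) (by positivity)
      · have : 0 ≤ Real.log M := Real.log_natCast_nonneg M
        positivity
    have h4 := Set.ncard_le_ncard hsub (finite_toSet _)
    rw [Set.ncard_coe_finset] at h4
    exact_mod_cast h4
  · have h3 := H2 X hX2
    rw [hadm]
    refine le_trans ?_ h3
    have hsub : {a | a ∈ Adms k X ∧ ∃ N : ℕ, N.Prime ∧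
      (N : ℝ) ≤ min c1 c2 * (Real.log X) ^ k * Real.log (Real.log X) ∧
        ∀ i, Rough X (N + a i)} ⊆
        (((Fintype.piFinset (fun _ : Fin k => Icc 1 X)).filter (fun a : Fin k → ℕ => Adm a ∧
      ∃ N : ℕ, N.Prime ∧ (N : ℝ) ≤ c2 * (Real.log X) ^ k * Real.log (Real.log X) ∧
        ∀ i, rough X (N + a i)) : Finset (Fin k → ℕ)) : Set (Fin k → ℕ)) := by
      intro a ha
      rw [mem_coe, mem_filter, Fintype.mem_piFinset]
      obtain ⟨N, hN, hNle, hr⟩ := ha.2
      refine ⟨fun i => mem_Icc.2 (ha.1.1 i), ha.1.2, N, hN, hNle.trans ?_, hr⟩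
      apply mul_le_mul_of_nonneg_right _ hll
      exact mul_le_mul_of_nonneg_right (min_le_right _ _) (by positivity)
    have h4 := Set.ncard_le_ncard hsub (finite_toSet _)
    rw [Set.ncard_coe_finset] at h4
    exact_mod_cast h4

end Pool.Agent.Results.MP_8923e7_nt.PrimeAndP4Tuples

/-!
Claim text of this theorem when it was handed in (it can be handed in again):

Proves: There is an absolute delta in (0,1] such that for all k >= 1, eta > 0 there are c, C > 0 and X0 with, for all X >= X0: (i) for all M with C (log X)^k loglog X <= M <= X and all j, all but a proportion Pr[Bin(k,delta) < j] + eta of the admissible a in [1,X]^k have a set I of j indices and at least c M/(log M (log X)^k) primes N <= M with each N+a_i a product of at most 4 primes > X^(1/50), and N+a_i prime for i in I; (ii) for at most a proportion eta of them there is a prime N <= c (log X)^k loglog X with all N+a_i free of prime factors <= X^(1/50).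
Definitions: Admissible: for each prime p some r has p dividing none of r, r+a_i. Adms k X: admissible a with 1 <= a_i <= X. Rough X n: all prime factors > X^(1/50). P4 X n: Rough with at most 4 prime factors (multiplicity). binTail delta k j = sum_{i<j} C(k,i) delta^i (1-delta)^(k-i). Ns: the primes N of (i).
Relation: Partial result on Q1, unconditional, on average over tuples; it treats no single tuple. j = 0: for almost all admissible tuples the least prime N with all N+a_i in P_4 (4 independent of k) has exact order (log X)^k loglog X. j = k: for a positive proportion all N+a_i are prime, N of that size. Known: all primes for almost all tuples with N up to about X (Balog 1990); for fixed tuples the number of prime factors grows with k; P_4 and P_2 in almost all intervals of length C log X (Friedlander 1982, Matomaki 2022). New as far as I know.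
-/
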